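import Mathlib

namespace Pool.Agent.Results.MP_3ea013_an.Ideal

/-- left stability of `S`, tested only against elements of `S` -/
def LeftStable {A : Type} [NormedRing A] (S : Set A) : Prop :=
  ∀ a ∈ S, ∀ M : ℝ, 0 < M → (∀ b ∈ S, ‖a * b‖ ≤ M * ‖b‖) → ‖a‖ ≤ M

/-- right stability of `S`, tested only against elements of `S` -/
def RightStable {A : Type} [NormedRing A] (S : Set A) : Prop :=
  ∀ a ∈ S, ∀ M : ℝ, 0 < M → (∀ b ∈ S, ‖b * a‖ ≤ M * ‖b‖) → ‖a‖ ≤ M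

def B : Type := ℂ × ℂ

noncomputable instance : CommRing B := inferInstanceAs (CommRing (ℂ × ℂ))

noncomputable instance : Algebra ℂ B := inferInstanceAs (Algebra ℂ (ℂ × ℂ))

noncomputable def N : RingNorm B where
  toFun x := ‖x.1‖ + 2 * ‖x.2 - x.1‖
  map_zero' := by
    change ‖(0 : ℂ)‖ + 2 * ‖(0 : ℂ) - 0‖ = 0
    simp
  add_le' x y := by
    change ‖x.1 + y.1‖ + 2 * ‖x.2 + y.2 - (x.1 + y.1)‖ ≤ _
    rw [add_sub_add_comm]
    linarith [norm_add_le x.1 y.1, norm_add_le (x.2 - x.1) (y.2 - y.1)]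
  neg' x := by
    change ‖-x.1‖ + 2 * ‖-x.2 - -x.1‖ = _
    rw [norm_neg, neg_sub_neg, norm_sub_rev]
  mul_le' x y := by
    change ‖x.1 * y.1‖ + 2 * ‖x.2 * y.2 - x.1 * y.1‖ ≤ _
    rw [show x.2 * y.2 - x.1 * y.1 = (x.2 - x.1) * (y.2 - y.1) + x.1 * (y.2 - y.1) +
      (x.2 - x.1) * y.1 by ring]
    have := norm_add₃_le (a := (x.2 - x.1) * (y.2 - y.1)) (b := x.1 * (y.2 - y.1))
      (c := (x.2 - x.1) * y.1)
    simp only [norm_mul] at this ⊢
    nlinarith [mul_nonneg (norm_nonneg (x.2 - x.1)) (norm_nonneg (y.2 - y.1))]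
  eq_zero_of_map_eq_zero' x h := by
    have a : x.1 = 0 := norm_le_zero_iff.1 (by linarith [norm_nonneg (x.2 - x.1)])
    have b : x.2 - x.1 = 0 := norm_le_zero_iff.1 (by linarith [norm_nonneg x.1])
    exact Prod.ext a (by rw [a, sub_zero] at b; exact b)

noncomputable instance : NormedRing B := N.toNormedRing

theorem nm (x : B) : ‖x‖ = ‖x.1‖ + 2 * ‖x.2 - x.1‖ := rfl

noncomputable instance : NormedAlgebra ℂ B where
  norm_smul_le c x := by
    change ‖c * x.1‖ + 2 * ‖c * x.2 - c * x.1‖ ≤ _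
    rw [← mul_sub, norm_mul, norm_mul, nm]
    linarith

theorem result : ∃ (A : Type) (_ : NormedRing A) (_ : NormedAlgebra ℂ A) (I : TwoSidedIdeal A),
    Nonempty (A ≃ₐ[ℂ] ℂ × ℂ) ∧ LeftStable (Set.univ : Set A) ∧ RightStable (Set.univ : Set A) ∧
      ¬LeftStable (I : Set A) ∧ ¬RightStable (I : Set A) := by
  have one : ‖(1 : B)‖ = 1 := by
    change ‖(1 : ℂ)‖ + 2 * ‖(1 : ℂ) - 1‖ = 1
    simp
  let e : B := ((0, 1) : ℂ × ℂ)
  have he : ¬‖e‖ ≤ 1 := by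
    change ¬‖(0 : ℂ)‖ + 2 * ‖(1 : ℂ) - 0‖ ≤ 1
    simp
  have eb : ∀ b : B, b.1 = 0 → e * b = b := fun b hb =>
    Prod.ext ((zero_mul b.1).trans hb.symm) (one_mul b.2)
  refine ⟨B, inferInstance, inferInstance, TwoSidedIdeal.ker (RingHom.fst ℂ ℂ), ⟨AlgEquiv.refl⟩,
    fun a _ M _ h => by simpa [one] using h 1 trivial,
    fun a _ M _ h => by simpa [one] using h 1 trivial, fun h => he (h e ?_ 1 one_pos fun b hb => ?_),
    fun h => he (h e ?_ 1 one_pos fun b hb => ?_)⟩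
  · exact (TwoSidedIdeal.mem_ker _).2 rfl
  · rw [eb b ((TwoSidedIdeal.mem_ker _).1 hb), one_mul]
  · exact (TwoSidedIdeal.mem_ker _).2 rfl
  · rw [mul_comm, eb b ((TwoSidedIdeal.mem_ker _).1 hb), one_mul]

end Pool.Agent.Results.MP_3ea013_an.Ideal
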